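import Pool.Agent.Y742.SP.Stm
import Pool.Agent.W602.GT.Der

/-!
SP-DOUBLE: double covers of the line (helper37).
-/

set_option autoImplicit false

namespace Pool.Agent.Y37.SP

open FF Polynomial Pool.Agent.W602.GT Pool.Agent.Y742.GG Pool.Agent.Y742.SP

/-- a nonzero polynomial is a square times a squarefree polynomial -/
theorem sq_decomp {F : Type} [Field F] : ∀ (n : ℕ) (Q : F[X]), Q ≠ 0 → Q.natDegree ≤ n →
    ∃ R Q1 : F[X], R ≠ 0 ∧ Squarefree Q1 ∧ Q = R ^ 2 * Q1 := by
  intro n
  induction n with
  | zero =>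
    intro Q h0 hn
    refine ⟨1, Q, one_ne_zero, ?_, by ring⟩
    have h1 : IsUnit Q := by
      rw [Polynomial.isUnit_iff_degree_eq_zero]
      rw [Polynomial.degree_eq_natDegree h0]
      have : Q.natDegree = 0 := by omega
      rw [this]; rfl
    exact h1.squarefree
  | succ n ih =>
    intro Q h0 hn
    by_cases hs : Squarefree Q
    · exact ⟨1, Q, one_ne_zero, hs, by ring⟩
    · unfold Squarefree at hs
      push Not at hs
      obtain ⟨x, ⟨Q', hQ'⟩, hx⟩ := hs
      have hx0 : x ≠ 0 := by
        rintro rfl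
        exact h0 (by rw [hQ']; ring)
      have hQ0 : Q' ≠ 0 := by
        rintro rfl
        exact h0 (by rw [hQ']; ring)
      have hdx : 0 < x.natDegree := by
        rw [Nat.pos_iff_ne_zero]
        intro h
        apply hx
        rw [Polynomial.isUnit_iff_degree_eq_zero, Polynomial.degree_eq_natDegree hx0, h]; rfl
      have hdeg : Q.natDegree = x.natDegree + x.natDegree + Q'.natDegree := by
        rw [hQ', Polynomial.natDegree_mul (mul_ne_zero hx0 hx0) hQ0,
          Polynomial.natDegree_mul hx0 hx0]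
      obtain ⟨R, Q1, hR, hQ1, h⟩ := ih Q' hQ0 (by omega)
      exact ⟨x * R, Q1, mul_ne_zero hx0 hR, hQ1, by rw [hQ', h]; ring⟩

section

variable {Ω K : Type} [Field Ω] [Field K] [Algebra Ω K]

theorem reg_coe {P : Place Ω K} {L : IntermediateField Ω K} (hP : TrivOn P L) (a : L) :
    P.Reg (a : K) := by
  by_cases h : (a : K) = 0
  · rw [h]; exact P.reg_zero
  · exact Or.inr (hP a a.2 h).ge

theorem reg_pow' {P : Place Ω K} {x : K} (hx : P.Reg x) (n : ℕ) : P.Reg (x ^ n) := by
  induction n with
  | zero => rw [pow_zero]; exact P.reg_one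
  | succ n ih => rw [pow_succ]; exact P.reg_mul ih hx

theorem reg_aeval {P : Place Ω K} {L : IntermediateField Ω K} (hP : TrivOn P L) {x : K}
    (hx : P.Reg x) (q : L[X]) : P.Reg (aeval x q) := by
  induction q using Polynomial.induction_on' with
  | add p q hp hq => rw [map_add]; exact P.reg_add hp hq
  | monomial n a =>
    rw [aeval_monomial]
    exact P.reg_mul (reg_coe hP a) (reg_pow' hx n)

theorem red_coe_ne {P : Place Ω K} {L : IntermediateField Ω K} (hP : TrivOn P L) {a : L}
    (ha : a ≠ 0) : P.red (a : K) ≠ 0 := by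
  have h : (a : K) ≠ 0 := fun h => ha (by exact_mod_cast h)
  exact P.red_ne_zero h (hP a a.2 h)

/-- the value at a point where the coordinate vanishes -/
theorem red_aeval_zero {P : Place Ω K} {L : IntermediateField Ω K} (hP : TrivOn P L) {x : K}
    (hx : P.Reg x) (hx0 : P.red x = 0) (q : L[X]) :
    P.red (aeval x q) = P.red ((q.coeff 0 : L) : K) := by
  have h1 : aeval x q = aeval x q.divX * x + ((q.coeff 0 : L) : K) := by
    conv_lhs => rw [← q.divX_mul_X_add]
    rw [map_add, map_mul, aeval_X, aeval_C]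
    rfl
  rw [h1, P.red_add (P.reg_mul (reg_aeval hP hx _) hx) (reg_coe hP _),
    P.red_mul (reg_aeval hP hx _) hx, hx0, mul_zero, zero_add]

/-- `GoodAt` is inherited by regular multiples -/
theorem goodAt_smul {P : Place Ω K} {L : IntermediateField Ω K} {D D2 : Derivation Ω K K} {r : K}
    (hr0 : r ≠ 0) (hr : P.Reg r) (hD : D = r • D2) (h : GoodAt P L D2) : GoodAt P L D := by
  refine ⟨?_, ?_⟩
  · intro f hf
    rw [hD, Derivation.smul_apply, smul_eq_mul]
    exact P.reg_mul hr (h.1 f hf)
  · intro E hE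
    obtain ⟨g, hg⟩ := h.2 E hE
    refine ⟨g / r, ?_⟩
    have : E + (g / r) • D = E + g • D2 := by
      rw [hD, smul_smul, div_mul_cancel₀ _ hr0]
    rwa [this]

theorem der_sq {L : IntermediateField Ω K} {x y : K} {q : L[X]} [CharZero K]
    (D : Derivation Ω K K) (hDL : ∀ a ∈ L, D a = 0) (hy : y ≠ 0) (hq : y ^ 2 = aeval x q)
    (hx : D x = 2 * y) : D y = aeval x (derivative q) := by
  let D' : Derivation L K K := Derivation.mk'
    { toFun := fun x => D x
      map_add' := fun x y => map_add D x y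
      map_smul' := fun c x => by
        have h : D (c : K) = 0 := hDL c c.2
        change D ((c : K) * x) = (c : K) * D x
        rw [D.leibniz, h]; simp } (fun a b => D.leibniz a b)
  have e : ∀ a, D' a = D a := fun _ => rfl
  have h1 : D' (y ^ 2) = D' (aeval x q) := by rw [hq]
  rw [D'.map_aeval, D'.leibniz_pow, e, e, hx] at h1
  simp only [smul_eq_mul, nsmul_eq_mul] at h1
  have h2 : (2 * y) * D y = (2 * y) * aeval x (derivative q) := by
    have h3 : ((2 : ℕ) : K) * (y ^ (2 - 1) * D y) = (2 * y) * D y := by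
      push_cast; ring
    rw [← h3, h1]; ring
  exact mul_left_cancel₀ (mul_ne_zero two_ne_zero hy) h2

/-- the chart lemma -/
theorem chart_good [CharZero Ω] (h : SGood) {P : Place Ω K} {L : IntermediateField Ω K}
    (hP : TrivOn P L) {x y : K} {q : L[X]} (hq : y ^ 2 = aeval x q)
    (hgen : IntermediateField.adjoin L {x, y} = ⊤) (hx : P.Reg x)
    (hsm : P.red y ≠ 0 ∨ P.red (aeval x (derivative q)) ≠ 0) (D : Derivation Ω K K)
    (hDL : ∀ a ∈ L, D a = 0) (hDx : D x = 2 * y) (hDy : D y = aeval x (derivative q)) :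
    GoodAt P L D := by
  have hy : P.Reg y := by
    by_cases h0 : y = 0
    · exact Or.inl h0
    · right
      have h1 : P.Reg (y ^ 2) := by rw [hq]; exact reg_aeval hP hx q
      rw [P.reg_iff (pow_ne_zero 2 h0), P.ord_pow] at h1
      omega
  have hc : CharZero K := charZero_of_injective_algebraMap (algebraMap Ω K).injective
  have hcomp : ∀ p : L[X], MvPolynomial.aeval ![x, y]
      (Polynomial.aeval (MvPolynomial.X 0 : MvPolynomial (Fin 2) L) p) = aeval x p := by
    intro p
    rw [← Polynomial.aeval_algHom_apply, MvPolynomial.aeval_X]; rfl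
  have h1 : MvPolynomial.aeval ![x, y] (MvPolynomial.pderiv 1
      (MvPolynomial.X 1 ^ 2 - Polynomial.aeval (MvPolynomial.X 0) q : MvPolynomial (Fin 2) L)) =
      2 * y := by
    rw [map_sub, Derivation.map_aeval, Derivation.leibniz_pow, MvPolynomial.pderiv_X_self,
      MvPolynomial.pderiv_X_of_ne (by decide)]
    simp
  have h0 : MvPolynomial.aeval ![x, y] (MvPolynomial.pderiv 0
      (MvPolynomial.X 1 ^ 2 - Polynomial.aeval (MvPolynomial.X 0) q : MvPolynomial (Fin 2) L)) =
      - aeval x (derivative q) := by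
    rw [map_sub, Derivation.map_aeval, Derivation.leibniz_pow, MvPolynomial.pderiv_X_self,
      MvPolynomial.pderiv_X_of_ne (by decide)]
    simp [hcomp]
  apply h Ω K L ![x, y] (MvPolynomial.X 1 ^ 2 - Polynomial.aeval (MvPolynomial.X 0) q) P
  · refine ⟨hP, ?_, ?_, ?_, ?_⟩
    · rw [map_sub, map_pow, MvPolynomial.aeval_X, ← Polynomial.aeval_algHom_apply,
        MvPolynomial.aeval_X]
      simp [hq]
    · rw [← hgen]
      congr 1
      simp [Set.pair_comm]
    · intro i
      fin_cases i
      · exact hx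
      · exact hy
    · have key : ∀ f : K, P.Reg f → P.red f ≠ 0 → f ≠ 0 ∧ P.ord f = 0 := by
        intro f hf hf0
        rw [Ne, P.red_eq_zero_iff hf] at hf0
        push Not at hf0
        exact ⟨hf0.1, le_antisymm hf0.2 ((P.reg_iff hf0.1).1 hf)⟩
      rcases hsm with h2 | h2
      · refine ⟨1, ?_⟩
        rw [h1]
        obtain ⟨h3, h4⟩ := key y hy h2
        refine ⟨mul_ne_zero two_ne_zero h3, ?_⟩
        have h5 : P.ord (2 : K) = 0 := by
          have := P.ord_const (c := (2 : Ω)) two_ne_zero
          rwa [map_ofNat] at this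
        rw [P.ord_mul two_ne_zero h3, h4, h5, add_zero]
      · refine ⟨0, ?_⟩
        rw [h0]
        obtain ⟨h3, h4⟩ := key _ (reg_aeval hP hx _) h2
        exact ⟨neg_ne_zero.2 h3, by rw [P.ord_neg, h4]⟩
  · exact hDL
  · rw [h1]; exact hDx
  · rw [h0, neg_neg]; exact hDy

end

/-- **SP-DOUBLE** -/
theorem sDouble (h : SGood) : SDouble := by
  intro Ω K _ _ _ _ L hL
  obtain ⟨t, w, Q, ht, hw, hdeg, hQ, hgen⟩ := hL
  have hc : CharZero K := charZero_of_injective_algebraMap (algebraMap Ω K).injective
  have hcL : CharZero L := charZero_of_injective_algebraMap (algebraMap Ω L).injective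
  have hev : ∀ q : L[X], q ≠ 0 → aeval t q ≠ 0 := fun q hq h0 => ht ⟨q, hq, h0⟩
  have hQ0 : Q ≠ 0 := by
    rintro rfl
    exact hQ ⟨0, 0, by simp⟩
  obtain ⟨R, Q1, hR0, hsq, hQR⟩ := sq_decomp _ Q hQ0 le_rfl
  have hQ10 : Q1 ≠ 0 := hsq.ne_zero
  have hdegQ : Q.natDegree = 2 * R.natDegree + Q1.natDegree := by
    rw [hQR, natDegree_mul (pow_ne_zero 2 hR0) hQ10, natDegree_pow]
  have hd4 : Q1.natDegree ≤ 4 := by omega
  have hd1 : 1 ≤ Q1.natDegree := by
    by_contra hd
    have hd0 : Q1.natDegree = 0 := by omega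
    apply hQ
    refine ⟨Q1.coeff 0, R, ?_⟩
    rw [← eq_C_of_natDegree_eq_zero hd0, hQR]; ring
  have hRt := hev R hR0
  obtain ⟨v, hv⟩ : ∃ v : K, v = w / aeval t R := ⟨_, rfl⟩
  have hwv : w = v * aeval t R := by rw [hv, div_mul_cancel₀ _ hRt]
  have hvQ : v ^ 2 = aeval t Q1 := by
    have : w ^ 2 = aeval t R ^ 2 * aeval t Q1 := by rw [hw, hQR, map_mul, map_pow]
    rw [hv, div_pow, this, mul_div_cancel_left₀ _ (pow_ne_zero 2 hRt)]
  have hv0 : v ≠ 0 := by
    rintro rfl
    exact hev Q1 hQ10 (by rw [← hvQ]; ring)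
  have ht0 : t ≠ 0 := by
    have := hev X X_ne_zero
    rwa [aeval_X] at this
  have haemem : ∀ (F : IntermediateField L K) (x : K), x ∈ F → ∀ q : L[X], aeval x q ∈ F := by
    intro F x hx q
    rw [aeval_eq_sum_range]
    exact sum_mem fun i _ => F.toSubalgebra.smul_mem (pow_mem hx i) _
  have hgen' : IntermediateField.adjoin L {t, v} = ⊤ := by
    rw [eq_top_iff, ← hgen, IntermediateField.adjoin_le_iff]
    have htm : t ∈ IntermediateField.adjoin L {t, v} :=
      IntermediateField.subset_adjoin _ _ (by simp)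
    have hvm : v ∈ IntermediateField.adjoin L {t, v} :=
      IntermediateField.subset_adjoin _ _ (by simp)
    intro a ha
    rcases ha with rfl | ha
    · exact htm
    · rw [Set.mem_singleton_iff.1 ha, hwv]
      exact mul_mem hvm (haemem _ t htm R)
  -- algebraicity
  have halg : ∀ b : K, IsAlgebraic (IntermediateField.adjoin L {t}) b := by
    intro b
    have hb : b ∈ IntermediateField.adjoin L {t, v} := by rw [hgen']; trivial
    have htm : t ∈ IntermediateField.adjoin L {t} :=
      IntermediateField.subset_adjoin _ _ (by simp)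
    induction hb using IntermediateField.adjoin_induction with
    | mem x hx =>
      rcases hx with rfl | hx
      · exact isAlgebraic_algebraMap (⟨x, htm⟩ : IntermediateField.adjoin L {x})
      · rw [Set.mem_singleton_iff.1 hx]
        apply IsAlgebraic.of_pow (n := 2) (by norm_num)
        rw [hvQ]
        exact isAlgebraic_algebraMap (⟨_, haemem _ t htm Q1⟩ : IntermediateField.adjoin L {t})
    | algebraMap x =>
      exact isAlgebraic_algebraMap (algebraMap L (IntermediateField.adjoin L {t}) x)
    | add x y hx hy h1 h2 => exact h1.add h2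
    | inv x hx h1 => exact h1.inv
    | mul x y hx hy h1 h2 => exact h1.mul h2
  classical
  refine ⟨⟨t, {t, v}, ht, halg, by rw [← hgen']; congr 1; simp⟩, ?_⟩
  -- the derivation
  have hbasis : IsTranscendenceBasis L (fun _ : Unit => t) := by
    rw [isTranscendenceBasis_iff_algebraicIndependent_isAlgebraic]
    refine ⟨algebraicIndependent_unique_type_iff.2 ht, ⟨fun b => ?_⟩⟩
    have hb : b ∈ IntermediateField.adjoin L {t, v} := by rw [hgen']; trivial
    have htm : t ∈ Algebra.adjoin L (Set.range (fun _ : Unit => t)) :=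
      Algebra.subset_adjoin ⟨(), rfl⟩
    have haem : ∀ q : L[X], aeval t q ∈ Algebra.adjoin L (Set.range (fun _ : Unit => t)) := by
      intro q
      rw [aeval_eq_sum_range]
      exact sum_mem fun i _ => Subalgebra.smul_mem _ (pow_mem htm i) _
    induction hb using IntermediateField.adjoin_induction with
    | mem x hx =>
      rcases hx with rfl | hx
      · exact isAlgebraic_algebraMap
          (⟨x, htm⟩ : Algebra.adjoin L (Set.range (fun _ : Unit => x)))
      · rw [Set.mem_singleton_iff.1 hx]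
        apply IsAlgebraic.of_pow (n := 2) (by norm_num)
        rw [hvQ]
        exact isAlgebraic_algebraMap
          (⟨_, haem Q1⟩ : Algebra.adjoin L (Set.range (fun _ : Unit => t)))
    | algebraMap x =>
      exact isAlgebraic_algebraMap
        (algebraMap L (Algebra.adjoin L (Set.range (fun _ : Unit => t))) x)
    | add x y hx hy h1 h2 => exact h1.add h2
    | inv x hx h1 => exact h1.inv
    | mul x y hx hy h1 h2 => exact h1.mul h2
  obtain ⟨D0, hD0⟩ := exists_der (fun _ : Unit => t) hbasis (fun _ => 2 * v)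
  obtain ⟨D, hD⟩ : ∃ D : Derivation Ω K K, ∀ x, D x = D0 x := ⟨D0.restrictScalars Ω, fun _ => rfl⟩
  have hDt : D t = 2 * v := by rw [hD]; exact hD0 ()
  have hDL : ∀ a ∈ L, D a = 0 := by
    intro a ha
    rw [hD]
    exact D0.map_algebraMap (⟨a, ha⟩ : L)
  have hDv : D v = aeval t (derivative Q1) := der_sq D hDL hv0 hvQ hDt
  refine ⟨D, ?_, hDL, ?_⟩
  · intro h0
    rw [h0] at hDt
    exact mul_ne_zero two_ne_zero hv0 hDt.symm
  intro P hP
  by_cases hreg : P.Reg t
  · -- the finite part
    apply chart_good h hP hvQ hgen' hreg ?_ D hDL hDt hDv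
    by_contra hcon
    push Not at hcon
    obtain ⟨a, b, hab⟩ := PerfectField.separable_iff_squarefree.2 hsq
    have h1 : aeval t a * v ^ 2 + aeval t b * aeval t (derivative Q1) = 1 := by
      rw [hvQ, ← map_mul, ← map_mul, ← map_add, hab, map_one]
    have hv : P.Reg v := by
      right
      have h1 : P.Reg (v ^ 2) := by rw [hvQ]; exact reg_aeval hP hreg _
      rw [P.reg_iff (pow_ne_zero 2 hv0), P.ord_pow] at h1
      omega
    have h2 := congrArg P.red h1
    rw [P.red_add (P.reg_mul (reg_aeval hP hreg _) (reg_pow' hv 2))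
      (P.reg_mul (reg_aeval hP hreg _) (reg_aeval hP hreg _)),
      P.red_mul (reg_aeval hP hreg _) (reg_pow' hv 2), P.red_pow hv,
      P.red_mul (reg_aeval hP hreg _) (reg_aeval hP hreg _), hcon.1, hcon.2, P.red_one] at h2
    simp at h2
  · -- the points at infinity
    have hord : P.ord t < 0 := by
      by_contra hn
      exact hreg (Or.inr (by omega))
    obtain ⟨u, hu⟩ : ∃ u : K, u = t⁻¹ := ⟨_, rfl⟩
    have hu0 : u ≠ 0 := by rw [hu]; exact inv_ne_zero ht0
    have htu : t = u⁻¹ := by rw [hu, inv_inv]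
    have hordu : 0 < P.ord u := by rw [hu, P.ord_inv]; omega
    have hureg : P.Reg u := Or.inr hordu.le
    have hredu : P.red u = 0 := (P.red_eq_zero_iff hureg).2 (Or.inr hordu)
    obtain ⟨m, hm1, hm2, hm3⟩ : ∃ m : ℕ, (m = 1 ∨ m = 2) ∧ Q1.natDegree ≤ 2 * m ∧
        2 * m - 1 ≤ Q1.natDegree := by
      by_cases h2 : Q1.natDegree ≤ 2
      · exact ⟨1, Or.inl rfl, by omega, by omega⟩
      · exact ⟨2, Or.inr rfl, by omega, by omega⟩
    have hm0 : 1 ≤ m := by omega
    obtain ⟨Q2, hQ2⟩ : ∃ Q2 : L[X], Q2 = reflect (2 * m) Q1 := ⟨_, rfl⟩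
    have hQ2t : aeval u Q2 * t ^ (2 * m) = aeval t Q1 := by
      let _ : Invertible t := invertibleOfNonzero ht0
      have h1 := eval₂_reflect_mul_pow (algebraMap L K) t (2 * m) Q1 hm2
      rw [invOf_eq_inv, ← hu, ← hQ2] at h1
      exact h1
    obtain ⟨y, hy⟩ : ∃ y : K, y = v * u ^ m := ⟨_, rfl⟩
    have hy0 : y ≠ 0 := by rw [hy]; exact mul_ne_zero hv0 (pow_ne_zero m hu0)
    have hyQ : y ^ 2 = aeval u Q2 := by
      have h1 : y ^ 2 * t ^ (2 * m) = aeval u Q2 * t ^ (2 * m) := by
        rw [hQ2t, ← hvQ, hy, htu, mul_pow, ← pow_mul, inv_pow, mul_comm m 2]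
        rw [mul_assoc, mul_inv_cancel₀ (pow_ne_zero _ hu0), mul_one]
      exact mul_right_cancel₀ (pow_ne_zero _ ht0) h1
    have hgen2 : IntermediateField.adjoin L {u, y} = ⊤ := by
      rw [eq_top_iff, ← hgen', IntermediateField.adjoin_le_iff]
      have hum : u ∈ IntermediateField.adjoin L {u, y} :=
        IntermediateField.subset_adjoin _ _ (by simp)
      have hym : y ∈ IntermediateField.adjoin L {u, y} :=
        IntermediateField.subset_adjoin _ _ (by simp)
      have htm : t ∈ IntermediateField.adjoin L {u, y} := by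
        rw [htu]; exact inv_mem hum
      intro a ha
      rcases ha with rfl | ha
      · exact htm
      · rw [Set.mem_singleton_iff.1 ha]
        have : v = y * t ^ m := by
          rw [hy, htu, mul_assoc, ← mul_pow, mul_inv_cancel₀ hu0, one_pow, mul_one]
        rw [this]
        exact mul_mem hym (pow_mem htm m)
    have hcoef0 : Q2.coeff 0 = Q1.coeff (2 * m) := by
      rw [hQ2, coeff_reflect, revAt_le (Nat.zero_le _), Nat.sub_zero]
    have hcoef1 : Q2.coeff 1 = Q1.coeff (2 * m - 1) := by
      rw [hQ2, coeff_reflect, revAt_le (by omega)]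
    have hsm : P.red y ≠ 0 ∨ P.red (aeval u (derivative Q2)) ≠ 0 := by
      by_cases h2 : Q1.natDegree = 2 * m
      · left
        intro h3
        have hyr : P.Reg y := by
          right
          have h1 : P.Reg (y ^ 2) := by rw [hyQ]; exact reg_aeval hP hureg _
          rw [P.reg_iff (pow_ne_zero 2 hy0), P.ord_pow] at h1
          omega
        have h4 : P.red (y ^ 2) = 0 := by rw [P.red_pow hyr, h3]; ring
        rw [hyQ, red_aeval_zero hP hureg hredu, hcoef0, ← h2] at h4
        exact red_coe_ne hP (leadingCoeff_ne_zero.2 hQ10) h4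
      · right
        have h2' : Q1.natDegree = 2 * m - 1 := by omega
        rw [red_aeval_zero hP hureg hredu, coeff_derivative]
        apply red_coe_ne hP
        rw [zero_add, hcoef1, ← h2']
        simp only [Nat.cast_zero, zero_add, mul_one]
        exact leadingCoeff_ne_zero.2 hQ10
    have hDu : D u = -(2 * v * u ^ 2) := by
      rw [hu, D.leibniz_inv, hDt]
      simp only [smul_eq_mul]
      ring
    rcases hm1 with hm1 | hm1
    · -- degree one or two
      have h1 : D = (-u) • ((-t) • D) := by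
        rw [smul_smul, htu]
        have : -u * -u⁻¹ = 1 := by field_simp
        rw [this, one_smul]
      apply goodAt_smul (neg_ne_zero.2 hu0) (P.reg_neg hureg) h1
      have hDL2 : ∀ a ∈ L, ((-t) • D) a = 0 := fun a ha => by
        rw [Derivation.smul_apply, hDL a ha, smul_zero]
      have hDu2 : ((-t) • D) u = 2 * y := by
        rw [Derivation.smul_apply, hDu, hy, hm1, htu, smul_eq_mul]
        field_simp
      exact chart_good h hP hyQ hgen2 hureg hsm _ hDL2 hDu2 (der_sq _ hDL2 hy0 hyQ hDu2)
    · -- degree three or four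
      have h1 : D = (-1 : K) • ((-1 : K) • D) := by
        rw [smul_smul]; simp
      apply goodAt_smul (neg_ne_zero.2 one_ne_zero) (P.reg_neg P.reg_one) h1
      have hDL2 : ∀ a ∈ L, ((-1 : K) • D) a = 0 := fun a ha => by
        rw [Derivation.smul_apply, hDL a ha, smul_zero]
      have hDu2 : ((-1 : K) • D) u = 2 * y := by
        rw [Derivation.smul_apply, hDu, hy, hm1, smul_eq_mul]
        ring
      exact chart_good h hP hyQ hgen2 hureg hsm _ hDL2 hDu2 (der_sq _ hDL2 hy0 hyQ hDu2)

end Pool.Agent.Y37.SP
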